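import Pool.Agent.RPX.Defs
import Pool.Agent.PQR.MainQ

set_option autoImplicit false

/-!
Three kinds of variables `x_i`, `y_i`, `z_i`. An item is a list of factors in the variables `x`,
`y` (as in `RPX`) and a pair of lists of composites in the variables `z` (as in `PQR`).
-/

namespace Pool.Agent.RPZ

open MvPolynomial
open Pool.Agent.RPX (Vr Fac facPoly)
open Pool.Agent.PQR.MainQ (Pair pairPoly)

/-- the variables: `Sum.inl (Sum.inl i)` is `x_i`, `Sum.inl (Sum.inr i)` is `y_i`, `Sum.inr i` is
`z_i` -/
abbrev Vz := Vr ⊕ ℕ

/-- an item: a list of factors, and a pair of lists of composites -/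
abbrev Item := List Fac × Pair

/-- The polynomial of an item: the product of the factors, times the product of the composites in
the first list, times the sum of the composites in the second list. -/
noncomputable def itemPoly (p : Item) : MvPolynomial Vz ℚ :=
  rename Sum.inl (p.1.map facPoly).prod * rename Sum.inr (pairPoly p.2)

end Pool.Agent.RPZ
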