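import Pool.Agent.RPZ.Pts
import Pool.Agent.RPZ.Defs
import Pool.Agent.CK.TA

set_option autoImplicit false

/-!
RPZ-Main. The algorithm: specialise `x`, `y` at the points of `RPZ/Pts.lean`, and apply the
decision procedure of `PQR` to the rest.
-/

namespace Pool.Agent.RPZ

open MvPolynomial N487b59b3 N68a2faeb Pool.Agent.Helper22 Pool.Agent.Helper6.WB
  Pool.Agent.Helper6.SP Pool.Agent.RP Pool.Agent.PQ Pool.Agent.RPX Pool.Agent.PQR
  Pool.Agent.PQR.MainQ

/-! ## Constants -/

/-- the formula of a fraction -/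
noncomputable def cstF (e : El) : Fm :=
  Fm.mul (Fm.add (Fm.const (e.1.1 : ℚ)) (Fm.const (-(e.1.2 : ℚ)))) (Fm.const ((e.2 : ℚ)⁻¹))

/-- its code -/
noncomputable def cst (e : El) : Wd :=
  [(0, (e.1.1 : ℚ)), (0, -(e.1.2 : ℚ)), (1, 0), (0, (e.2 : ℚ)⁻¹), (2, 0)]

theorem code_cstF (e : El) : (cstF e).code = cst e := rfl

theorem poly_cstF (e : El) : (cstF e).poly = C (toQ e) := by
  unfold cstF toQ
  simp only [Fm.poly]
  rw [← C_add, ← C_mul, sub_eq_add_neg, div_eq_mul_inv]

theorem fp_cst : FP cst := by
  have h1 : FP fun e : El => ((0 : ℕ), (e.1.1 : ℚ)) :=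
    FP.pair (FP.const 0) (fp_natQ (FP.fst.comp FP.fst))
  have h2 : FP fun e : El => ((0 : ℕ), -(e.1.2 : ℚ)) :=
    FP.pair (FP.const 0) (Pool.Agent.CK.fp_negN (FP.snd.comp FP.fst))
  have h3 : FP fun e : El => ((0 : ℕ), (e.2 : ℚ)⁻¹) :=
    FP.pair (FP.const 0) (Pool.Agent.CK.fp_invN FP.snd)
  exact FP.cons h1 (FP.cons h2 (FP.cons (FP.const (1, 0)) (FP.cons h3
    (FP.cons (FP.const (2, 0)) (FP.const [])))))

/-! ## The algorithm -/

/-- a coded item -/
abbrev ItC := List FacC × Qr

/-- the list of pairs, the first lists with the values of the factors -/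
noncomputable def lst (x : (En × List ZZ) × List ItC) : List Qr :=
  x.2.map fun p => ((cst (proE (x.1, p.1)), []) :: p.2.1, p.2.2)

theorem fp_lst : FP lst := by
  have h1 : FP fun q : ((En × List ZZ) × List ItC) × ItC =>
      (((cst (proE (q.1.1, q.2.1)), ([] : List Wd)) : Cm) :: q.2.2.1, q.2.2.2) := by
    refine FP.pair (FP.cons (FP.pair (fp_cst.comp (fp_proE'.comp (FP.pair (FP.fst.comp FP.fst)
      (FP.fst.comp FP.snd)))) (FP.const [])) ?_) ?_
    · exact FP.fst.comp (FP.snd.comp FP.snd)
    · exact FP.snd.comp (FP.snd.comp FP.snd)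
  exact fp_map FP.snd h1

/-- the bound for the degrees -/
def dZ (p : Wd × List ItC) : List Bool :=
  dQ (p.1 ++ (p.1 ++ p.1), p.2.map Prod.fst)

theorem fp_fsts : FP fun p : Wd × List ItC => p.2.map Prod.fst :=
  fp_map (h := fun q : (Wd × List ItC) × ItC => q.2.1) FP.snd (FP.fst.comp FP.snd)

theorem fp_dZ : FP dZ :=
  fp_dQ.comp (FP.pair (FP.append FP.fst (FP.append FP.fst FP.fst)) fp_fsts)

/-- the decision -/
noncomputable def dec (κ k r t Δ : ℕ) (f : Wd × List Qr → Bool) (p : Wd × List ItC) : Bool :=
  !((pts κ k r t Δ (p.2.map Prod.fst, dZ p)).any fun q => !(f (p.1, lst (q, p.2))))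

theorem fp_dec (κ k r t Δ : ℕ) {f : Wd × List Qr → Bool} (hf : FP f) : FP (dec κ k r t Δ f) := by
  have h1 : FP fun p : Wd × List ItC => pts κ k r t Δ (p.2.map Prod.fst, dZ p) :=
    (fp_pts κ k r t Δ).comp (FP.pair fp_fsts fp_dZ)
  have h2 : FP fun w : (Wd × List ItC) × (En × List ZZ) => !(f (w.1.1, lst (w.2, w.1.2))) :=
    FP.not (hf.comp (FP.pair (FP.fst.comp FP.fst)
      (fp_lst.comp (FP.pair FP.snd (FP.snd.comp FP.fst)))))
  exact FP.not (fp_any h1 h2)

theorem dec_true (κ k r t Δ : ℕ) (f : Wd × List Qr → Bool) (p : Wd × List ItC) :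
    dec κ k r t Δ f p = true ↔ ∀ q ∈ pts κ k r t Δ (p.2.map Prod.fst, dZ p),
      f (p.1, lst (q, p.2)) = true := by
  unfold dec
  rw [Bool.not_eq_true', Bool.eq_false_iff, ne_eq, List.any_eq_true]
  push Not
  constructor
  · intro h q hq
    have := h q hq
    simpa using this
  · intro h q hq
    have := h q hq
    simpa using this

/-! ## Specialisation -/

/-- the variables `x`, `y` become constants -/
noncomputable def spX (v : Vr → ℚ) : MvPolynomial Vz ℚ →ₐ[ℚ] MvPolynomial ℕ ℚ :=
  aeval (Sum.elim (fun i => C (v i)) X)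

/-- the variables `z` become constants -/
noncomputable def spZ (v : ℕ → ℚ) : MvPolynomial Vz ℚ →ₐ[ℚ] MvPolynomial Vr ℚ :=
  aeval (Sum.elim X fun i => C (v i))

private theorem aeval_C {σ τ : Type*} (v : σ → ℚ) (F : MvPolynomial σ ℚ) :
    aeval (fun i => (C (v i) : MvPolynomial τ ℚ)) F = C (eval v F) := by
  induction F using MvPolynomial.induction_on with
  | C a => simp
  | add p q hp hq => rw [map_add, hp, hq, map_add, map_add]
  | mul_X p i hp => rw [map_mul, hp, aeval_X, map_mul, eval_X, map_mul]

theorem spX_inl (v : Vr → ℚ) (F : MvPolynomial Vr ℚ) :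
    spX v (rename Sum.inl F) = C (eval v F) := by
  unfold spX
  rw [aeval_rename, Sum.elim_comp_inl]
  exact aeval_C v F

theorem spX_inr (v : Vr → ℚ) (F : MvPolynomial ℕ ℚ) : spX v (rename Sum.inr F) = F := by
  unfold spX
  rw [aeval_rename, Sum.elim_comp_inr]
  exact aeval_X_left_apply F

theorem spZ_inl (v : ℕ → ℚ) (F : MvPolynomial Vr ℚ) : spZ v (rename Sum.inl F) = F := by
  unfold spZ
  rw [aeval_rename, Sum.elim_comp_inl]
  exact aeval_X_left_apply F

theorem spZ_inr (v : ℕ → ℚ) (F : MvPolynomial ℕ ℚ) :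
    spZ v (rename Sum.inr F) = C (eval v F) := by
  unfold spZ
  rw [aeval_rename, Sum.elim_comp_inr]
  exact aeval_C v F

theorem eval_spX (v : Vr → ℚ) (w : ℕ → ℚ) (F : MvPolynomial Vz ℚ) :
    eval w (spX v F) = eval (Sum.elim v w) F := by
  unfold spX
  induction F using MvPolynomial.induction_on with
  | C a => simp
  | add p q hp hq => rw [map_add, map_add, hp, hq, map_add]
  | mul_X p i hp =>
    rw [map_mul, map_mul, hp, aeval_X, map_mul, eval_X]
    cases i with
    | inl i => simp
    | inr i => simp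

theorem eval_spZ (v : Vr → ℚ) (w : ℕ → ℚ) (F : MvPolynomial Vz ℚ) :
    eval v (spZ w F) = eval (Sum.elim v w) F := by
  unfold spZ
  induction F using MvPolynomial.induction_on with
  | C a => simp
  | add p q hp hq => rw [map_add, map_add, hp, hq, map_add]
  | mul_X p i hp =>
    rw [map_mul, map_mul, hp, aeval_X, map_mul, eval_X]
    cases i with
    | inl i => simp
    | inr i => simp

/-! ## Algebraic independence -/

private theorem indep_scale {ι A : Type*} [CommRing A] [Algebra ℚ A] (x : ι → A) (c : ι → ℚ)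
    (hc : ∀ i, c i ≠ 0) (h : AlgebraicIndependent ℚ x) :
    AlgebraicIndependent ℚ fun i => algebraMap ℚ A (c i) * x i := by
  set φ : MvPolynomial ι ℚ →ₐ[ℚ] MvPolynomial ι ℚ := aeval fun i => C (c i) * X i with hφ
  set ψ : MvPolynomial ι ℚ →ₐ[ℚ] MvPolynomial ι ℚ := aeval fun i => C (c i)⁻¹ * X i with hψ
  have h1 : ψ.comp φ = AlgHom.id ℚ _ := by
    ext1 i
    rw [AlgHom.comp_apply, hφ, aeval_X, map_mul, hψ, aeval_X, ← algebraMap_eq, AlgHom.commutes,
      algebraMap_eq, ← mul_assoc, ← C_mul, mul_inv_cancel₀ (hc i), C_1, one_mul]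
    rfl
  have h2 : Function.Injective φ := by
    intro a b hab
    have h3 := congrArg ψ hab
    rw [← AlgHom.comp_apply, ← AlgHom.comp_apply, h1] at h3
    exact h3
  have h3 : (aeval fun i => algebraMap ℚ A (c i) * x i : MvPolynomial ι ℚ →ₐ[ℚ] A) =
      (aeval x).comp φ := by
    ext1 i
    rw [AlgHom.comp_apply, hφ, aeval_X, aeval_X, map_mul, aeval_X, ← algebraMap_eq,
      AlgHom.commutes]
  unfold AlgebraicIndependent
  rw [h3, AlgHom.coe_comp]
  exact Function.Injective.comp h h2

/-! ## Items -/

private theorem cw_code' (c : Comp) : cw (compCode c) = compPoly c := by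
  unfold cw compPoly compCode
  simp only
  rw [pw_code]
  congr 2
  funext j
  unfold cq
  simp only
  rw [List.getD_eq_getElem?_getD, List.getD_eq_getElem?_getD, List.getElem?_map,
    List.getElem?_map]
  cases c.2[j]? with
  | none => exact pw_w0
  | some g => exact pw_code g

private theorem FC_code' (p : Pair) : FC (pairCode p) = pairPoly p := by
  unfold FC SC pairCode pairPoly
  simp only [List.map_map]
  congr 1
  · congr 1
    exact List.map_congr_left fun c _ => cw_code' c
  · congr 1
    exact List.map_congr_left fun c _ => cw_code' c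

/-- the code of an item -/
def itemCode (p : Item) : ItC := (p.1.map facCode, pairCode p.2)

private theorem fst_map (L : List Item) :
    (L.map itemCode).map Prod.fst = cdF (L.map Prod.fst) := by
  unfold cdF
  rw [List.map_map, List.map_map]
  rfl

/-- the pair of an item after specialisation -/
noncomputable def itS (q : En × List ZZ) (p : Item) : Qr :=
  ((cst (proE (q, p.1.map facCode)), []) :: (pairCode p.2).1, (pairCode p.2).2)

private theorem lst_map (q : En × List ZZ) (L : List Item) :
    lst (q, L.map itemCode) = L.map (itS q) := by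
  unfold lst
  rw [List.map_map]
  rfl

private theorem FC_itS (q : En × List ZZ) (p : Item) (a : ℚ)
    (ha : toQ (proE (q, p.1.map facCode)) = a) : FC (itS q p) = C a * pairPoly p.2 := by
  have h1 : cw (cst (proE (q, p.1.map facCode)), ([] : List Wd)) = C a := by
    unfold cw
    simp only
    rw [← code_cstF, pw_code, poly_cstF, ha, ← algebraMap_eq, AlgHom.commutes, algebraMap_eq]
  rw [← FC_code']
  unfold FC itS
  simp only [List.map_cons, List.prod_cons]
  rw [h1, mul_assoc]

private theorem FC_itS' (q : En × List ZZ) (p : Item)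
    (ha : toQ (proE (q, p.1.map facCode)) = eval (ptV q) (p.1.map facPoly).prod) :
    FC (itS q p) = spX (ptV q) (itemPoly p) := by
  rw [FC_itS q p _ ha]
  unfold itemPoly
  rw [map_mul, spX_inl, spX_inr]

private theorem cmpC_itS (q : En × List ZZ) (Q : Fm) (L : List Item)
    (ha : ∀ p ∈ L, toQ (proE (q, p.1.map facCode)) = eval (ptV q) (p.1.map facPoly).prod) :
    cmpC Q (L.map (itS q)) =
      spX (ptV q) (aeval (fun i => (L.map itemPoly).getD i 0) Q.poly) := by
  unfold cmpC
  have h0 : spX (ptV q) (aeval (fun i => (L.map itemPoly).getD i 0) Q.poly) =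
      aeval (fun i => spX (ptV q) ((L.map itemPoly).getD i 0)) Q.poly := by
    rw [← AlgHom.comp_apply, comp_aeval]
  rw [h0]
  congr 2
  funext j
  by_cases hj : j < L.length
  · rw [List.getD_eq_getElem _ _ (by rw [List.length_map]; exact hj),
      List.getD_eq_getElem _ _ (by rw [List.length_map]; exact hj), List.getElem_map,
      List.getElem_map]
    exact FC_itS' q _ (ha _ (List.getElem_mem _))
  · rw [List.getD_eq_default _ _ (by rw [List.length_map]; omega),
      List.getD_eq_default _ _ (by rw [List.length_map]; omega), map_zero]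
    simp [FC, SC]

private theorem codes_itS (q : En × List ZZ) (L : List Item) : CodesC (L.map (itS q)) := by
  intro l hl w hw
  unfold allC csC at hl
  obtain ⟨c, hc, rfl⟩ := List.mem_map.mp hl
  obtain ⟨u, hu, hcu⟩ := List.mem_flatMap.mp hc
  obtain ⟨p, hp, rfl⟩ := List.mem_map.mp hu
  have h : (c = (cst (proE (q, p.1.map facCode)), [])) ∨ ∃ d : Comp, compCode d = c := by
    rcases List.mem_append.mp hcu with h | h
    · rcases List.mem_cons.mp h with h | h
      · exact Or.inl h
      · obtain ⟨d, _, hd⟩ := List.mem_map.mp h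
        exact Or.inr ⟨d, hd⟩
    · obtain ⟨d, _, hd⟩ := List.mem_map.mp h
      exact Or.inr ⟨d, hd⟩
  rcases h with rfl | ⟨d, rfl⟩
  · rcases List.mem_cons.mp hw with rfl | hw
    · exact ⟨_, code_cstF _⟩
    · simp at hw
  · rcases List.mem_cons.mp hw with rfl | hw
    · exact ⟨d.1, rfl⟩
    · obtain ⟨g, _, hg⟩ := List.mem_map.mp hw
      exact ⟨g, hg⟩

private theorem ok_comp' {r : ℕ} {Z : Finset ℕ} {c : Comp} (h : IsQuad r Z c) :
    OkZ r Z (compCode c) := by
  refine ⟨⟨c.1, rfl⟩, by simpa [compCode] using h.1, ?_⟩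
  intro w hw
  obtain ⟨g, hg, rfl⟩ := List.mem_map.mp hw
  exact ⟨⟨g, rfl⟩, by rw [pw_code]; exact h.2 g hg⟩

private theorem good_itS {r : ℕ} {Z : Finset ℕ} (q : En × List ZZ) (p : Item)
    (h : ∀ c ∈ p.2.1 ++ p.2.2, IsQuad r Z c) : GoodZ r Z (itS q p) := by
  refine ⟨?_, ?_⟩
  · intro c hc
    rcases List.mem_cons.mp hc with rfl | hc
    · refine ⟨⟨_, code_cstF _⟩, Nat.zero_le _, ?_⟩
      intro w hw
      simp at hw
    · obtain ⟨d, hd, rfl⟩ := List.mem_map.mp hc
      exact ok_comp' (h d (List.mem_append_left _ hd))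
  · intro c hc
    obtain ⟨d, hd, rfl⟩ := List.mem_map.mp hc
    exact ok_comp' (h d (List.mem_append_right _ hd))

/-- the independent subfamilies after a specialisation of the items of the list -/
private theorem tr_spec {B A : Type} [CommRing A] [Algebra ℚ A] (L : List Item) (g : Item → B)
    (F : B → A) (φ : MvPolynomial Vz ℚ →ₐ[ℚ] A) (hF : ∀ p ∈ L, F (g p) = φ (itemPoly p)) (k : ℕ)
    (h : ∀ b : Finset (Fin L.length), AlgebraicIndepOn ℚ (fun j => itemPoly (L.get j))
      (b : Set (Fin L.length)) → b.card ≤ k) :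
    ∀ b : Finset (Fin (L.map g).length), AlgebraicIndepOn ℚ (fun j => F ((L.map g).get j))
      (b : Set (Fin (L.map g).length)) → b.card ≤ k := by
  intro b hb
  have hlen : (L.map g).length = L.length := List.length_map _
  have key : ∀ i : Fin (L.map g).length,
      F ((L.map g).get i) = φ (itemPoly (L.get (finCongr hlen i))) := by
    intro i
    rw [List.get_eq_getElem, List.getElem_map]
    exact hF _ (List.getElem_mem _)
  have h1 := h (b.map (finCongr hlen).toEmbedding) ?_
  · rwa [Finset.card_map] at h1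
  · have hφ : ∀ x : ((b.map (finCongr hlen).toEmbedding : Finset (Fin L.length)) :
        Set (Fin L.length)), (finCongr hlen).symm x.1 ∈ (b : Set (Fin (L.map g).length)) := by
      rintro ⟨x, hx⟩
      rw [Finset.mem_coe, Finset.mem_map] at hx
      obtain ⟨y, hy, rfl⟩ := hx
      simpa using hy
    have h2 := AlgebraicIndependent.comp hb (fun x => ⟨(finCongr hlen).symm x.1, hφ x⟩) (by
      intro x y hxy
      apply Subtype.ext
      have := congrArg Subtype.val hxy
      exact (finCongr hlen).symm.injective this)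
    have h3 : (φ ∘ fun x : ((b.map (finCongr hlen).toEmbedding : Finset (Fin L.length)) :
        Set (Fin L.length)) => itemPoly (L.get x.1)) =
        (fun i : (b : Set (Fin (L.map g).length)) => F ((L.map g).get i.1)) ∘
          fun x => ⟨(finCongr hlen).symm x.1, hφ x⟩ := by
      funext x
      simp only [Function.comp]
      rw [key]
      simp
    refine AlgebraicIndependent.of_comp φ ?_
    rw [h3]
    exact h2

/-! ## The degree -/

/-- scaling of the variables in a formula -/
private noncomputable def scF (b : ℕ → ℚ) : Fm → Fm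
  | .const q => .const q
  | .var i => .mul (.const (b i)) (.var i)
  | .add F G => .add (scF b F) (scF b G)
  | .mul F G => .mul (scF b F) (scF b G)

private theorem scF_len (b : ℕ → ℚ) (Q : Fm) : (scF b Q).code.length ≤ 3 * Q.code.length := by
  induction Q with
  | const q => simp [scF, Fm.code]
  | var i => simp [scF, Fm.code]
  | add F G ihF ihG =>
    simp only [scF, Fm.code, List.length_append, List.length_cons, List.length_nil]
    omega
  | mul F G ihF ihG =>
    simp only [scF, Fm.code, List.length_append, List.length_cons, List.length_nil]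
    omega

private theorem scF_poly (b : ℕ → ℚ) (f : ℕ → MvPolynomial Vr ℚ) (Q : Fm) :
    aeval f (scF b Q).poly = aeval (fun j => C (b j) * f j) Q.poly := by
  induction Q with
  | const q => simp [scF, Fm.poly]
  | var i => simp [scF, Fm.poly, algebraMap_eq]
  | add F G ihF ihG => simp only [scF, Fm.poly, map_add, ihF, ihG]
  | mul F G ihF ihG => simp only [scF, Fm.poly, map_mul, ihF, ihG]

private theorem dQ_len (w : Wd) (L : List (List FacC)) :
    (dQ (w, L)).length = w.length * ((toks1 L).length * (dL L).length) := by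
  rw [dQ, Helper22.un_length, List.length_map, Helper22.un_length, List.length_map]

private theorem spZ_comp (z : ℕ → ℚ) (Q : Fm) (L : List Item) :
    spZ z (aeval (fun i => (L.map itemPoly).getD i 0) Q.poly) =
      aeval (fun j => C (eval z (pairPoly (L.getD j ([], ([], []))).2)) *
        ((L.map Prod.fst).map fun p => (p.map facPoly).prod).getD j 0) Q.poly := by
  have h0 : spZ z (aeval (fun i => (L.map itemPoly).getD i 0) Q.poly) =
      aeval (fun i => spZ z ((L.map itemPoly).getD i 0)) Q.poly := by
    rw [← AlgHom.comp_apply, comp_aeval]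
  rw [h0]
  congr 2
  funext j
  by_cases hj : j < L.length
  · rw [List.getD_eq_getElem (L.map itemPoly) _ (by rw [List.length_map]; exact hj),
      List.getD_eq_getElem ((L.map Prod.fst).map _) _
        (by rw [List.length_map, List.length_map]; exact hj),
      List.getD_eq_getElem L _ hj, List.getElem_map, List.getElem_map, List.getElem_map]
    unfold itemPoly
    rw [map_mul, spZ_inl, spZ_inr, mul_comm]
  · rw [List.getD_eq_default (L.map itemPoly) _ (by rw [List.length_map]; omega),
      List.getD_eq_default ((L.map Prod.fst).map _) _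
        (by rw [List.length_map, List.length_map]; omega), map_zero,
      mul_zero]

private theorem spZ_deg (z : ℕ → ℚ) (Q : Fm) (L : List Item) :
    (spZ z (aeval (fun i => (L.map itemPoly).getD i 0) Q.poly)).totalDegree ≤
      (dZ (Q.code, L.map itemCode)).length := by
  have h1 : spZ z (aeval (fun i => (L.map itemPoly).getD i 0) Q.poly) =
      cmpR (scF (fun j => eval z (pairPoly (L.getD j ([], ([], []))).2)) Q)
        (L.map Prod.fst) := by
    rw [spZ_comp, cmpR, scF_poly]
  rw [h1]
  refine (totalDegree_cmpR _ _).trans ?_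
  unfold dZ
  simp only
  rw [dQ_len, dQ_len, fst_map]
  refine Nat.mul_le_mul_right _ ?_
  rw [List.length_append, List.length_append]
  have := scF_len (fun j => eval z (pairPoly (L.getD j ([], ([], []))).2)) Q
  omega

/-! ## Correctness -/

open Classical in
/-- the products of the factors, one if the rest vanishes at `z` -/
private noncomputable def TZ (z : ℕ → ℚ) (L : List Item) (i : Fin L.length) :
    MvPolynomial Vr ℚ :=
  if eval z (pairPoly (L.get i).2) = 0 then 1 else ((L.get i).1.map facPoly).prod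

private theorem TZ_mem (z : ℕ → ℚ) (L : List Item) (Q : Fm) :
    spZ z (aeval (fun i => (L.map itemPoly).getD i 0) Q.poly) ∈
      Algebra.adjoin ℚ (Set.range (TZ z L)) := by
  rw [spZ_comp]
  induction Q with
  | const q =>
    simp only [Fm.poly]
    rw [MvPolynomial.aeval_C]
    exact Subalgebra.algebraMap_mem _ _
  | var i =>
    simp only [Fm.poly, aeval_X]
    by_cases h : i < L.length
    · rw [List.getD_eq_getElem L _ h,
        List.getD_eq_getElem ((L.map Prod.fst).map _) _
          (by rw [List.length_map, List.length_map]; exact h),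
        List.getElem_map, List.getElem_map]
      by_cases h0 : eval z (pairPoly L[i].2) = 0
      · rw [h0, C_0, zero_mul]
        exact Subalgebra.zero_mem _
      · refine Subalgebra.mul_mem _ ?_ (Algebra.subset_adjoin ⟨⟨i, h⟩, ?_⟩)
        · rw [← algebraMap_eq]
          exact Subalgebra.algebraMap_mem _ _
        · unfold TZ
          rw [List.get_eq_getElem, if_neg h0]
    · rw [List.getD_eq_default ((L.map Prod.fst).map _) _
        (by rw [List.length_map, List.length_map]; exact not_lt.mp h), mul_zero]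
      exact Subalgebra.zero_mem _
  | add F G ihF ihG =>
    simp only [Fm.poly, map_add]
    exact Subalgebra.add_mem _ ihF ihG
  | mul F G ihF ihG =>
    simp only [Fm.poly, map_mul]
    exact Subalgebra.mul_mem _ ihF ihG

private theorem TZ_tr (z : ℕ → ℚ) (L : List Item) (k : ℕ)
    (h : ∀ b : Finset (Fin L.length), AlgebraicIndepOn ℚ (fun j => itemPoly (L.get j))
      (b : Set (Fin L.length)) → b.card ≤ k) :
    ∀ b : Finset (Fin L.length), AlgebraicIndepOn ℚ (TZ z L) (b : Set (Fin L.length)) →
      b.card ≤ k := by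
  intro b hb
  apply h
  have hb' : AlgebraicIndependent ℚ fun x : (b : Set (Fin L.length)) => TZ z L x.1 := hb
  have h1 : ∀ x : (b : Set (Fin L.length)), eval z (pairPoly (L.get x.1).2) ≠ 0 := by
    intro x h0
    have h2 := hb'.transcendental x
    unfold TZ at h2
    rw [if_pos h0] at h2
    exact h2 isAlgebraic_one
  refine AlgebraicIndependent.of_comp (spZ z) ?_
  have h2 : (spZ z ∘ fun x : (b : Set (Fin L.length)) => itemPoly (L.get x.1)) =
      fun x => algebraMap ℚ (MvPolynomial Vr ℚ) (eval z (pairPoly (L.get x.1).2)) *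
        TZ z L x.1 := by
    funext x
    simp only [Function.comp]
    unfold itemPoly TZ
    rw [map_mul, spZ_inl, spZ_inr, mul_comm, if_neg (h1 x), algebraMap_eq]
  show AlgebraicIndependent ℚ (spZ z ∘ fun x : (b : Set (Fin L.length)) => itemPoly (L.get x.1))
  rw [h2]
  exact indep_scale _ _ h1 hb'

/-- **Main theorem.** -/
theorem main (κ k r t Δ : ℕ) : ∃ f : List (ℕ × ℚ) ×
      List (List (List (ℕ × ℚ) × (List (List (ℕ × ℚ)) × List Rb)) ×
        (List (List (ℕ × ℚ) × List (List (ℕ × ℚ))) ×
          List (List (ℕ × ℚ) × List (List (ℕ × ℚ))))) → Bool,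
    N68a2faeb.IsPolyTime f ∧ ∀ (Q : Fm) (L : List Item) (Z : Finset ℕ), Z.card ≤ r →
      (∀ p ∈ L, ∀ c ∈ p.1, Good κ k r t Δ c) →
      (∀ p ∈ L, ∀ c ∈ p.2.1 ++ p.2.2, IsQuad r Z c) →
      (∀ b : Finset (Fin L.length), AlgebraicIndepOn ℚ (fun i => itemPoly (L.get i))
        (b : Set (Fin L.length)) → b.card ≤ k) →
      (f (Q.code, L.map fun p => (p.1.map facCode, pairCode p.2)) = true ↔
        aeval (fun i => (L.map itemPoly).getD i 0) Q.poly = 0) := by
  obtain ⟨f2, hf2, hc, hr⟩ := exists_decZ r k
  refine ⟨dec κ k r t Δ f2,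
    (Pool.Agent.Helper22.isPolyTime_iff _).mpr (fp_dec κ k r t Δ hf2), ?_⟩
  intro Q L Z hZ hG hQ htr
  show dec κ k r t Δ f2 (Q.code, L.map itemCode) = true ↔ _
  have hLG : ∀ p ∈ L.map Prod.fst, ∀ c ∈ p, Good κ k r t Δ c := by
    intro p hp c hc
    obtain ⟨u, hu, rfl⟩ := List.mem_map.mp hp
    exact hG u hu c hc
  have hval : ∀ q ∈ pts κ k r t Δ (cdF (L.map Prod.fst), dZ (Q.code, L.map itemCode)),
      ∀ p ∈ L, toQ (proE (q, p.1.map facCode)) = eval (ptV q) (p.1.map facPoly).prod :=
    fun q hq p hp => val_pts κ k r t Δ (L.map Prod.fst) _ q hq p.1 (List.mem_map_of_mem hp)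
  rw [dec_true]
  simp only
  rw [fst_map]
  constructor
  · intro h
    by_contra hne
    set H := aeval (fun i => (L.map itemPoly).getD i 0) Q.poly with hH
    obtain ⟨v, hv⟩ : ∃ v : Vz → ℚ, eval v H ≠ 0 := by
      by_contra hcon
      push Not at hcon
      apply hne
      apply MvPolynomial.funext
      intro v
      rw [hcon v, map_zero]
    set z : ℕ → ℚ := fun i => v (Sum.inr i) with hz
    set x : Vr → ℚ := fun i => v (Sum.inl i) with hx
    have hv' : Sum.elim x z = v := by
      funext i
      cases i <;> rfl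
    have hne' : spZ z H ≠ 0 := by
      intro h0
      apply hv
      rw [← hv', ← eval_spZ, h0, map_zero]
    obtain ⟨q, hq, hqv⟩ := hit_pts κ k r t Δ (L.map Prod.fst) (dZ (Q.code, L.map itemCode)) hLG
      (TZ z L) (by
        intro i
        unfold TZ
        by_cases h0 : eval z (pairPoly (L.get i).2) = 0
        · left
          rw [if_pos h0]
        · right
          rw [if_neg h0]
          exact ⟨(L.get i).1, List.mem_map_of_mem (List.get_mem L i), rfl⟩)
      (TZ_tr z L k htr) (spZ z H) (TZ_mem z L Q) hne' (spZ_deg z Q L)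
    have h1 := h q hq
    rw [lst_map] at h1
    have h2 : cmpC Q (L.map (itS q)) = 0 := by
      refine hr Q _ Z hZ ?_ ?_ h1
      · intro p hp
        obtain ⟨u, hu, rfl⟩ := List.mem_map.mp hp
        exact good_itS q u (hQ u hu)
      · exact tr_spec L (itS q) FC (spX (ptV q)) (fun p hp => FC_itS' q p (hval q hq p hp)) k htr
    rw [cmpC_itS q Q L (hval q hq)] at h2
    apply hqv
    rw [eval_spZ, ← eval_spX, h2, map_zero]
  · intro h q hq
    rw [lst_map]
    apply hc Q _ (codes_itS q L)
    rw [cmpC_itS q Q L (hval q hq), h, map_zero]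

end Pool.Agent.RPZ
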