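import Pool.Agent.RPX.Hit
import Pool.Agent.RPX.Pt
import Pool.Agent.RPX.CmpD

set_option autoImplicit false

/-!
RPZ-Pts. A polynomial-time list of points which hits the algebra generated by products of the
factors of `RPX`, up to a given degree (from `RPX/Main.lean`).
-/

namespace Pool.Agent.RPZ

open MvPolynomial N487b59b3 N68a2faeb Pool.Agent.Helper22 Pool.Agent.Helper6.WB
  Pool.Agent.Helper6.SP Pool.Agent.RP Pool.Agent.PQ Pool.Agent.RPX

/-! ## The list -/

private theorem fp_pgs45 : FP pgs := by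
  have h1 : FP fun L : List (List FacC) => L.flatten := fp_flatten FP.id
  have h2 : FP fun q : List (List FacC) × FacC => q.2.2.2 := FP.snd.comp (FP.snd.comp FP.snd)
  exact fp_flatMap h1 h2

private theorem fp_fms45 : FP fms := by
  have h1 : FP fun L : List (List FacC) => L.flatten := fp_flatten FP.id
  have h2 : FP fun q : List (List FacC) × FacC => q.2.2.1 := FP.fst.comp (FP.snd.comp FP.snd)
  exact fp_flatMap h1 h2

private theorem fp_toks45 : FP toks1 := by
  have h1 : FP fun L : List (List FacC) => L.flatten := fp_flatten FP.id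
  have h2 : FP fun q : List (List FacC) × FacC => q.2.1 := FP.fst.comp FP.snd
  exact fp_flatMap h1 h2

private theorem fp_dL45 : FP dL := by
  have h1 : FP fun L : List (List FacC) => (fms L).flatten.map fun t =>
      (fun _ : List (List FacC) × (ℕ × ℚ) => true) (L, t) :=
    fp_map (fp_flatten fp_fms45) (FP.const true)
  exact FP.append h1 (FP.unMul (fp_nL.comp fp_pgs45) (fp_DL.comp fp_pgs45))

theorem fp_dQ : FP dQ := by
  have h1 : FP fun p : Wd × List (List FacC) => p.1.map fun t =>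
      (fun _ : (Wd × List (List FacC)) × (ℕ × ℚ) => true) (p, t) :=
    fp_map FP.fst (FP.const true)
  have h2 : FP fun p : Wd × List (List FacC) => (toks1 p.2).map fun t =>
      (fun _ : (Wd × List (List FacC)) × (ℕ × ℚ) => true) (p, t) :=
    fp_map (fp_toks45.comp FP.snd) (FP.const true)
  exact FP.unMul h1 (FP.unMul h2 (fp_dL45.comp FP.snd))

/-- the codes of the formulas and of their derivatives -/
private noncomputable def xW (Δ : ℕ) (p : List (List FacC)) : Inp :=
  (exists_extW Δ).choose (fms p)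

private theorem fp_xW (Δ : ℕ) : FP (xW Δ) :=
  (exists_extW Δ).choose_spec.1.comp fp_fms45

/-- the number of the variables of the first kind -/
private noncomputable def aU (Δ : ℕ) (p : List (List FacC)) : List Bool :=
  (names (xW Δ p)).map fun _ => true

private theorem fp_aU (Δ : ℕ) : FP (aU Δ) := by
  have h1 : FP fun p : List (List FacC) => names (xW Δ p) := fp_names.comp (fp_xW Δ)
  have h2 : FP fun p : List (List FacC) => (names (xW Δ p)).map fun t =>
      (fun _ : List (List FacC) × ℕ => true) (p, t) := fp_map h1 (FP.const true)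
  exact h2

/-- the values of the seeds -/
private noncomputable def grd (Δ : ℕ) (p : List (List FacC) × List Bool) : List ℕ :=
  List.range (true :: (un ((aU Δ p.1 ++ nL (pgs p.1)).length * p.2.length) ++ p.2)).length

private theorem mem_grd {Δ : ℕ} {p : List (List FacC) × List Bool} {v : ℕ} : v ∈ grd Δ p ↔
    v ≤ ((aU Δ p.1).length + (nL (pgs p.1)).length) * p.2.length + p.2.length := by
  unfold grd
  rw [List.mem_range]
  simp only [List.length_cons, List.length_append, Helper22.un_length]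
  omega

private theorem fp_grd (Δ : ℕ) : FP (grd Δ) := by
  have h0 : FP fun p : List (List FacC) × List Bool => aU Δ p.1 ++ nL (pgs p.1) :=
    FP.append ((fp_aU Δ).comp FP.fst) ((fp_nL.comp fp_pgs45).comp FP.fst)
  have h1 := FP.unMul h0 (FP.snd : FP fun p : List (List FacC) × List Bool => p.2)
  exact FP.range (FP.cons (FP.const true) (FP.append h1 FP.snd))

/-- the test points -/
private noncomputable def tpt (κ k r t Δ : ℕ) (p : List (List FacC)) (zs : List ℕ) :
    En × List ZZ :=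
  (envX (EE κ k r t Δ) (xW Δ p)
      (ptF k (TT κ k r t Δ) (kX r Δ (TT κ k r t Δ)) (xW Δ p))
      (aU Δ p ++ nL (pgs p)) zs,
    ptY (EE κ k r t Δ) (bp k Δ (TT κ k r t Δ) (pgs p)) (aU Δ p) (nL (pgs p)) zs)

private theorem fp_tpt (κ k r t Δ : ℕ) :
    FP fun q : (List (List FacC) × List Bool) × List ℕ => tpt κ k r t Δ q.1.1 q.2 := by
  have h0 : FP fun q : (List (List FacC) × List Bool) × List ℕ => pgs q.1.1 :=
    fp_pgs45.comp (FP.fst.comp FP.fst)
  have hx : FP fun q : (List (List FacC) × List Bool) × List ℕ => xW Δ q.1.1 :=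
    (fp_xW Δ).comp (FP.fst.comp FP.fst)
  have ha : FP fun q : (List (List FacC) × List Bool) × List ℕ => aU Δ q.1.1 :=
    (fp_aU Δ).comp (FP.fst.comp FP.fst)
  have hb : FP fun q : (List (List FacC) × List Bool) × List ℕ => nL (pgs q.1.1) :=
    fp_nL.comp h0
  have he : FP fun q : (List (List FacC) × List Bool) × List ℕ =>
      ptF k (TT κ k r t Δ) (kX r Δ (TT κ k r t Δ)) (xW Δ q.1.1) :=
    (fp_ptF k (TT κ k r t Δ) (kX r Δ (TT κ k r t Δ))).comp hx
  have hv : FP fun q : (List (List FacC) × List Bool) × List ℕ =>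
      bp k Δ (TT κ k r t Δ) (pgs q.1.1) := (fp_bp k Δ (TT κ k r t Δ)).comp h0
  exact FP.pair (fp_envX (EE κ k r t Δ) hx he (FP.append ha hb) FP.snd)
    (fp_ptY (EE κ k r t Δ) hv ha hb FP.snd)

/-- the list of the test points -/
noncomputable def pts (κ k r t Δ : ℕ) (p : List (List FacC) × List Bool) :
    List (En × List ZZ) :=
  (lpow (grd Δ p) (EE κ k r t Δ + EE κ k r t Δ)).map (tpt κ k r t Δ p.1)

theorem fp_pts (κ k r t Δ : ℕ) : FP (pts κ k r t Δ) :=
  fp_map (fp_lpow (fp_grd Δ) (EE κ k r t Δ + EE κ k r t Δ)) (fp_tpt κ k r t Δ)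

/-! ## Correctness -/

/-- the formulas at the leaves -/
private def fL (L : List (List Fac)) : List Fm := L.flatten.flatMap fun c => c.2.1

private theorem mem_fL {L : List (List Fac)} {p : List Fac} (hp : p ∈ L) {c : Fac} (hc : c ∈ p)
    {g : Fm} (hg : g ∈ c.2.1) : g ∈ fL L :=
  List.mem_flatMap.2 ⟨c, List.mem_flatten.2 ⟨p, hp, hc⟩, hg⟩

private theorem fms_cdF (L : List (List Fac)) : fms (cdF L) = (fL L).map Fm.code := by
  unfold fms cdF fL
  induction L with
  | nil => rfl
  | cons p L ih =>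
    rw [List.map_cons, List.flatten_cons, List.flatMap_append, ih, List.flatten_cons,
      List.flatMap_append, List.map_append]
    congr 1
    induction p with
    | nil => rfl
    | cons c p ihp =>
      rw [List.map_cons, List.flatMap_cons, ihp, List.flatMap_cons, List.map_append]
      rfl

private theorem xW_cdF (Δ : ℕ) (L : List (List Fac)) : xW Δ (cdF L) = cd [extF Δ (fL L)] := by
  unfold xW
  rw [fms_cdF]
  exact (exists_extW Δ).choose_spec.2 (fL L)

private theorem mem_pgs {L : List (List Fac)} {p : List Fac} (hp : p ∈ L) {c : Fac} (hc : c ∈ p)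
    {ρ : Rb} (hρ : ρ ∈ c.2.2) : ρ ∈ pgs (cdF L) := by
  unfold pgs
  refine List.mem_flatMap.2 ⟨facCode c, List.mem_flatten.2 ⟨p.map facCode, ?_, ?_⟩, hρ⟩
  · exact List.mem_map_of_mem hp
  · exact List.mem_map_of_mem hc

private theorem ptY_eq' (E : ℕ) (v : List ℕ) (a b : List Bool) {A : ℕ} (hA : a.length = A)
    (z y : Fin E → ℕ) (i : Fin b.length) :
    zq ((ptY E v a b (List.ofFn z ++ List.ofFn y)).getD i.val (0, 0)) = (v.getD i.val 0 : ℚ) +
      ∑ l : Fin E, (z l : ℚ) * ∏ j ∈ Finset.univ.erase (Fin.natAdd A i),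
        ((y l : ℚ) - (j.val : ℚ)) := by
  subst hA
  exact ptY_eq E v a b z y i

private theorem totalDegree_le_rename' {σ τ : Type*} (ρ : σ → τ) (hρ : Function.Injective ρ)
    (p : MvPolynomial σ ℚ) : p.totalDegree ≤ (rename ρ p).totalDegree := by
  rcases isEmpty_or_nonempty σ with h | h
  · have h1 : p.totalDegree = 0 := by
      rw [totalDegree_eq_zero_iff]
      intro m _ x
      exact h.elim x
    rw [h1]
    exact Nat.zero_le _
  · have h1 : rename (Function.invFun ρ) (rename ρ p) = p := by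
      rw [rename_rename, (Function.leftInverse_invFun hρ).comp_eq_id, rename_id_apply]
    conv_lhs => rw [← h1]
    exact totalDegree_rename_le _ _

private theorem tpt_eq (κ k r t Δ : ℕ) (L : List (List Fac))
    (z y : Fin (EE κ k r t Δ) → ℕ) (i : Fin (nX Δ (fL L) + (nL (pgs (cdF L))).length)) :
    Sum.elim (ptE (tpt κ k r t Δ (cdF L) (List.ofFn z ++ List.ofFn y)).1)
      (fun i => zq ((tpt κ k r t Δ (cdF L) (List.ofFn z ++ List.ofFn y)).2.getD i (0, 0)))
      (eA Δ (fL L) (pgs (cdF L)) i) =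
    vA κ k r t Δ (fL L) (pgs (cdF L)) i + ∑ l : Fin (EE κ k r t Δ),
      (z l : ℚ) * ∏ j ∈ Finset.univ.erase i, ((y l : ℚ) - (j.val : ℚ)) := by
  have hx := xW_cdF Δ L
  have hA : (aU Δ (cdF L)).length = nX Δ (fL L) := by
    unfold aU
    rw [List.length_map, hx]
    rfl
  refine Fin.addCases (fun i => ?_) (fun i => ?_) i
  · have h1 : eA Δ (fL L) (pgs (cdF L)) (Fin.castAdd _ i) = Sum.inl (eX Δ (fL L) i) := by
      unfold eA
      rw [Fin.addCases_left]
    have h2 : vA κ k r t Δ (fL L) (pgs (cdF L)) (Fin.castAdd _ i) =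
        vX k r Δ (TT κ k r t Δ) (fL L) i := by
      unfold vA
      rw [Fin.append_left]
    rw [h1, h2, Sum.elim_inl]
    have h3 := envX_eq (EE κ k r t Δ) [extF Δ (fL L)]
      (ptF k (TT κ k r t Δ) (kX r Δ (TT κ k r t Δ)) (cd [extF Δ (fL L)]))
      (nL (pgs (cdF L))).length (aU Δ (cdF L) ++ nL (pgs (cdF L)))
      (by rw [List.length_append, hA]; rfl) z y i
    unfold tpt
    rw [hx]
    exact h3
  · have h1 : eA Δ (fL L) (pgs (cdF L)) (Fin.natAdd _ i) = Sum.inr i.val := by
      unfold eA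
      rw [Fin.addCases_right]
    have h2 : vA κ k r t Δ (fL L) (pgs (cdF L)) (Fin.natAdd _ i) =
        vY k Δ (TT κ k r t Δ) (pgs (cdF L)) i := by
      unfold vA
      rw [Fin.append_right]
    rw [h1, h2, Sum.elim_inr]
    exact ptY_eq' (EE κ k r t Δ) (bp k Δ (TT κ k r t Δ) (pgs (cdF L)))
      (aU Δ (cdF L)) (nL (pgs (cdF L))) hA z y i

private theorem grid45 {n E D : ℕ} (γ : Fin n → ℚ) (f : MvPolynomial (Fin n) ℚ)
    (hD : f.totalDegree ≤ D) (s : Fin E ⊕ Fin E → ℚ)
    (hs : eval (fun i => γ i + Pool.Agent.Helper5.gen n E s i) f ≠ 0) :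
    ∃ z y : Fin E → ℕ, (∀ l, z l ≤ D) ∧ (∀ l, y l ≤ n * D) ∧
      eval (fun i => γ i + ∑ l : Fin E, (z l : ℚ) *
        ∏ j ∈ Finset.univ.erase i, ((y l : ℚ) - (j.val : ℚ))) f ≠ 0 := by
  classical
  set fγ : MvPolynomial (Fin n) ℚ :=
    aeval (fun v => (X v + C (γ v) : MvPolynomial (Fin n) ℚ)) f with hfγ
  have hev : ∀ x : Fin n → ℚ, eval x fγ = eval (fun v => γ v + x v) f := by
    intro x
    have h1 : (eval x).comp ((aeval (fun v => (X v + C (γ v) :
        MvPolynomial (Fin n) ℚ)) : MvPolynomial (Fin n) ℚ →ₐ[ℚ] _) :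
            MvPolynomial (Fin n) ℚ →+* _) = eval (fun v => γ v + x v) := by
      apply VF.ringHom_ext_rat
      intro v
      simp [add_comm]
    exact congrArg (fun g => g f) h1
  have hdeg : fγ.totalDegree ≤ D := by
    refine (totalDegree_aeval_le _ (fun v => ?_) f).trans hD
    refine (totalDegree_add _ _).trans (max_le (totalDegree_X v).le ?_)
    rw [totalDegree_C]
    exact Nat.zero_le _
  obtain ⟨a, ha, hea⟩ := Pool.Agent.Helper5.hit_grid fγ _ hdeg E ⟨s, by
    rw [hev]; exact hs⟩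
  unfold Pool.Agent.Helper5.hittingSet at ha
  rw [Finset.mem_image] at ha
  obtain ⟨⟨z, y⟩, hzy, rfl⟩ := ha
  rw [Finset.mem_product, Fintype.mem_piFinset, Fintype.mem_piFinset] at hzy
  obtain ⟨hz, hy⟩ := hzy
  refine ⟨z, y, fun l => ?_, fun l => ?_, ?_⟩
  · have := hz l
    simp only [Finset.mem_range] at this
    omega
  · have := hy l
    simp only [Finset.mem_range] at this
    omega
  · rw [hev] at hea
    exact hea

/-- the point with the given coordinates -/
noncomputable def ptV (q : En × List ZZ) : Vr → ℚ :=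
  Sum.elim (ptE q.1) fun i => zq (q.2.getD i (0, 0))

/-- **Main theorem.** The list hits the algebra generated by `T`. -/
theorem hit_pts (κ k r t Δ : ℕ) (L : List (List Fac)) (d : List Bool)
    (hocc : ∀ p ∈ L, ∀ c ∈ p, Good κ k r t Δ c) {N : ℕ} (T : Fin N → MvPolynomial Vr ℚ)
    (hTL : ∀ i, T i = 1 ∨ ∃ p ∈ L, T i = (p.map facPoly).prod)
    (htr : ∀ b : Finset (Fin N), AlgebraicIndepOn ℚ T (b : Set (Fin N)) → b.card ≤ k)
    (F : MvPolynomial Vr ℚ) (hF : F ∈ Algebra.adjoin ℚ (Set.range T)) (hne : F ≠ 0)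
    (hdF : F.totalDegree ≤ d.length) :
    ∃ q ∈ pts κ k r t Δ (cdF L, d), eval (ptV q) F ≠ 0 := by
  classical
  have h0 : ∀ g ∈ fL L, ∀ i, g.reads i ≤ r := by
    intro g hg i
    obtain ⟨c, hc, hgc⟩ := List.mem_flatMap.1 hg
    obtain ⟨p, hp, hcp⟩ := List.mem_flatten.1 hc
    exact (hocc p hp c hcp).1 g hgc i
  have hT : ∀ i : Fin N, T i ∈ Submonoid.closure
      {f | Occ κ (fun g => (∃ F ∈ fL L, g = rename Sum.inl F.poly) ∨
        ∃ ρ ∈ pgs (cdF L), Tame k t ρ ∧ g = rename Sum.inr (val ρ)) Δ f} := by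
    intro i
    rcases hTL i with h1 | ⟨p, hp, h1⟩
    · rw [h1]
      exact Submonoid.one_mem _
    rw [h1]
    refine Submonoid.list_prod_mem _ fun x hx => ?_
    obtain ⟨c, hc, rfl⟩ := List.mem_map.1 hx
    refine Submonoid.subset_closure ?_
    have hg := hocc _ hp c hc
    refine Occ.mono ?_ hg.2.2
    intro g hgl
    unfold leaves at hgl
    rcases List.mem_append.1 hgl with h1 | h1
    · obtain ⟨F, hF, rfl⟩ := List.mem_map.1 h1
      exact Or.inl ⟨F, mem_fL hp hc hF, rfl⟩
    · obtain ⟨ρ, hρ, rfl⟩ := List.mem_map.1 h1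
      exact Or.inr ⟨ρ, mem_pgs hp hc hρ, hg.2.1 ρ hρ, rfl⟩
  obtain ⟨f, s, hf, hs⟩ := hit κ k r t Δ (fL L) (pgs (cdF L)) h0 T hT htr F hF hne
  have hA : (aU Δ (cdF L)).length = nX Δ (fL L) := by
    unfold aU
    rw [List.length_map, xW_cdF]
    rfl
  have hdeg : f.totalDegree ≤ d.length := by
    refine (totalDegree_le_rename' (eA Δ (fL L) (pgs (cdF L)))
      (eA_inj Δ (fL L) (pgs (cdF L))) f).trans ?_
    rw [hf]
    exact hdF
  obtain ⟨z, y, hz, hy, hne'⟩ := grid45 _ f hdeg s hs
  have hnn : (aU Δ (cdF L)).length + (nL (pgs (cdF L))).length =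
      nX Δ (fL L) + (nL (pgs (cdF L))).length := by
    rw [hA]
  have hzs : List.ofFn z ++ List.ofFn y ∈
      lpow (grd Δ (cdF L, d)) (EE κ k r t Δ + EE κ k r t Δ) := by
    rw [mem_lpow]
    refine ⟨by rw [List.length_append, List.length_ofFn, List.length_ofFn], ?_⟩
    intro p hp
    rw [mem_grd, hnn]
    simp only
    rcases List.mem_append.mp hp with hp | hp
    · obtain ⟨l, rfl⟩ := List.mem_ofFn.mp hp
      have := hz l
      omega
    · obtain ⟨l, rfl⟩ := List.mem_ofFn.mp hp
      have := hy l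
      omega
  refine ⟨tpt κ k r t Δ (cdF L) (List.ofFn z ++ List.ofFn y),
    List.mem_map.2 ⟨_, hzs, rfl⟩, ?_⟩
  rw [← hf, eval_rename]
  intro h3
  apply hne'
  rw [← h3]
  refine congrArg (fun x => eval x f) ?_
  funext i
  exact (tpt_eq κ k r t Δ L z y i).symm

/-- the values of the factors at the test points -/
theorem val_pts (κ k r t Δ : ℕ) (L : List (List Fac)) (d : List Bool) (q : En × List ZZ)
    (hq : q ∈ pts κ k r t Δ (cdF L, d)) (p : List Fac) (hp : p ∈ L) :
    toQ (proE (q, p.map facCode)) = eval (ptV q) (p.map facPoly).prod := by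
  obtain ⟨zs, _, rfl⟩ := List.mem_map.1 hq
  have h0 : toQ (proE (tpt κ k r t Δ (cdF L, d).1 zs, p.map facCode)) =
      ((p.map facCode).map fun c => facV (tpt κ k r t Δ (cdF L, d).1 zs, c)).prod :=
    fq_proV.choose_spec.2.2 _
  rw [h0, map_list_prod, List.map_map, List.map_map]
  congr 1
  apply List.map_congr_left
  intro c hc
  simp only [Function.comp]
  refine facV_eq _ _ c fun g hg => ?_
  have h1 : (tpt κ k r t Δ (cdF L) zs).2.length = (nL (pgs (cdF L))).length :=
    length_ptY _ _ _ _ _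
  exact (length_input (mem_pgs hp hc hg)).trans h1.ge

theorem fp_proE' : FP proE := fq_proV.choose_spec.1

theorem proE_ne (x : (En × List ZZ) × List FacC) : (proE x).2 ≠ 0 := fq_proV.choose_spec.2.1 x

end Pool.Agent.RPZ
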